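import Pool.Agent.Run7.h58.AR.Iface
import Pool.Agent.R951.FM.Hz2

/-!
# Project AR (helper58), pieces HEX and ATOM
-/

set_option autoImplicit false

open MeasureTheory Filter Topology Set Complex

namespace Run7.h771.AR

open Pool.Agent.Run7.h58.AR

theorem measurable_ker (z : ℂ) : Measurable (ker z) := by
  unfold Pool.Agent.Run7.h58.AR.ker
  fun_prop

/-- reduction modulo `2 π` -/
noncomputable def rd (θ : ℝ) : ℝ := toIocMod Real.two_pi_pos (-Real.pi) θ

theorem measurable_rd : Measurable rd := by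
  have h : rd = fun θ : ℝ => θ - (-⌊(-Real.pi + 2 * Real.pi - θ) / (2 * Real.pi)⌋ : ℤ) •
      (2 * Real.pi) := by
    funext θ
    unfold rd toIocMod
    rw [toIocDiv_eq_neg_floor]
  rw [h]
  simp only [zsmul_eq_mul]
  have h1 : Measurable fun θ : ℝ => ⌊(-Real.pi + 2 * Real.pi - θ) / (2 * Real.pi)⌋ :=
    Int.measurable_floor.comp (by fun_prop)
  have h2 : Measurable fun θ : ℝ =>
      ((-⌊(-Real.pi + 2 * Real.pi - θ) / (2 * Real.pi)⌋ : ℤ) : ℝ) :=
    (measurable_from_top (f := fun n : ℤ => ((-n : ℤ) : ℝ))).comp h1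
  exact measurable_id.sub (h2.mul_const _)

theorem rd_mem (θ : ℝ) : rd θ ∈ Ioc (-Real.pi) Real.pi := by
  have h := toIocMod_mem_Ioc Real.two_pi_pos (-Real.pi) θ
  have e : -Real.pi + 2 * Real.pi = Real.pi := by ring
  rwa [e] at h

theorem exp_rd (θ : ℝ) : exp ((rd θ : ℂ) * I) = exp ((θ : ℂ) * I) := by
  unfold rd toIocMod
  set m := toIocDiv Real.two_pi_pos (-Real.pi) θ
  have h : (((θ - m • (2 * Real.pi) : ℝ) : ℂ)) * I = (θ : ℂ) * I - m * (2 * Real.pi * I) := by
    push_cast [zsmul_eq_mul]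
    ring
  rw [h, Complex.exp_sub, Complex.exp_int_mul_two_pi_mul_I, div_one]

theorem t_HEX : S_HEX := by
  intro F hd hre h0
  obtain ⟨τ, hτ, hF⟩ := Pool.Agent.R951.FM.herglotz hd hre h0
  have hm : Measurable rd := measurable_rd
  refine ⟨τ.map rd, ?_, ?_, fun z hz => ?_⟩
  · exact Measure.isFiniteMeasure_map τ rd
  · rw [Measure.map_apply hm measurableSet_Ioc.compl]
    have : rd ⁻¹' (Ioc (-Real.pi) Real.pi)ᶜ = ∅ := by
      ext θ
      simp only [mem_preimage, mem_compl_iff, mem_empty_iff_false, iff_false, not_not]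
      exact rd_mem θ
    rw [this, measure_empty]
  · rw [integral_map hm.aemeasurable (measurable_ker z).aestronglyMeasurable, hF z hz]
    refine integral_congr_ae (Eventually.of_forall fun θ => ?_)
    show Pool.Agent.R951.FM.ker z θ = ker z (rd θ)
    unfold Pool.Agent.Run7.h58.AR.ker
    rw [exp_rd]
    rfl

theorem t_ATOM : S_ATOM := by
  intro F σ α hσ hα
  obtain ⟨hfin, hsup, hF⟩ := hσ
  have := hfin
  have hev : ∀ᶠ r : ℝ in 𝓝[<] 1, 0 < r ∧ r < 1 := by
    have h1 : Ioo (0 : ℝ) 1 ∈ 𝓝[<] (1 : ℝ) := Ioo_mem_nhdsLT zero_lt_one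
    filter_upwards [h1] with r hr using hr
  have hnα : ∀ r : ℝ, 0 < r → ‖(r : ℂ) * exp (α * I)‖ = r := by
    intro r hr
    rw [norm_mul, Complex.norm_exp_ofReal_mul_I, mul_one, Complex.norm_real, Real.norm_eq_abs,
      abs_of_pos hr]
  have h1 : (fun r : ℝ => ((1 - r) / 2 : ℂ) * F (r * exp (α * I))) =ᶠ[𝓝[<] 1]
      fun r : ℝ => ∫ θ, ((1 - r) / 2 : ℂ) * ker (r * exp (α * I)) θ ∂σ := by
    filter_upwards [hev] with r hr
    rw [integral_const_mul, hF]
    show _ ∈ Metric.ball (0 : ℂ) 1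
    rw [mem_ball_zero_iff, hnα r hr.1]
    exact hr.2
  have h2 : ((σ {α}).toReal : ℂ) = ∫ θ, ({α} : Set ℝ).indicator (fun _ => (1 : ℂ)) θ ∂σ := by
    rw [integral_indicator (measurableSet_singleton α), integral_const]
    simp [Measure.real]
  rw [h2]
  refine Tendsto.congr' h1.symm ?_
  refine tendsto_integral_filter_of_dominated_convergence (fun _ => (1 : ℝ)) ?_ ?_
    (integrable_const _) ?_
  · exact Eventually.of_forall fun r => ((measurable_ker _).const_mul _).aestronglyMeasurable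
  · filter_upwards [hev] with r hr
    refine Eventually.of_forall fun θ => ?_
    unfold Pool.Agent.Run7.h58.AR.ker
    have hden : 1 - r ≤ ‖exp ((θ : ℂ) * I) - r * exp (α * I)‖ := by
      have := norm_sub_norm_le (exp ((θ : ℂ) * I)) ((r : ℂ) * exp (α * I))
      rwa [Complex.norm_exp_ofReal_mul_I, hnα r hr.1] at this
    have hnum : ‖exp ((θ : ℂ) * I) + r * exp (α * I)‖ ≤ 2 := by
      refine (norm_add_le _ _).trans ?_
      rw [Complex.norm_exp_ofReal_mul_I, hnα r hr.1]
      linarith [hr.2]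
    have h3 : ‖((1 - r) / 2 : ℂ)‖ = (1 - r) / 2 := by
      have : ((1 - r) / 2 : ℂ) = (((1 - r) / 2 : ℝ) : ℂ) := by push_cast; ring
      rw [this, Complex.norm_real, Real.norm_eq_abs, abs_of_pos (by linarith [hr.2])]
    have hp : 0 < 1 - r := by linarith [hr.2]
    rw [norm_mul, h3, norm_div]
    have h4 : ‖exp ((θ : ℂ) * I) + r * exp (α * I)‖ / ‖exp ((θ : ℂ) * I) - r * exp (α * I)‖ ≤
        2 / (1 - r) := div_le_div₀ (by norm_num) hnum hp hden
    calc (1 - r) / 2 * _ ≤ (1 - r) / 2 * (2 / (1 - r)) :=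
          mul_le_mul_of_nonneg_left h4 (by linarith)
      _ = 1 := by field_simp
  · have hsup' : ∀ᵐ θ ∂σ, θ ∈ Ioc (-Real.pi) Real.pi := by
      rw [ae_iff]
      exact hsup
    filter_upwards [hsup'] with θ hθ
    by_cases h : θ = α
    · subst h
      rw [indicator_of_mem (mem_singleton θ)]
      have h3 : (fun r : ℝ => ((1 - r) / 2 : ℂ) * ker (r * exp (θ * I)) θ) =ᶠ[𝓝[<] 1]
          fun r : ℝ => ((1 + r) / 2 : ℂ) := by
        filter_upwards [hev] with r hr
        unfold Pool.Agent.Run7.h58.AR.ker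
        have he : exp ((θ : ℂ) * I) ≠ 0 := Complex.exp_ne_zero _
        have h4 : (1 - (r : ℂ)) ≠ 0 := by
          intro h5
          have : (r : ℂ) = 1 := by linear_combination -h5
          have : r = 1 := by exact_mod_cast this
          linarith [hr.2]
        have h6 : exp ((θ : ℂ) * I) - r * exp ((θ : ℂ) * I) = (1 - r) * exp ((θ : ℂ) * I) := by
          ring
        rw [h6]
        field_simp
      refine Tendsto.congr' h3.symm ?_
      have h7 : Tendsto (fun r : ℝ => ((1 + r) / 2 : ℂ)) (𝓝 1) (𝓝 ((1 + (1 : ℝ)) / 2 : ℂ)) := by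
        refine Continuous.tendsto ?_ 1
        fun_prop
      have h8 : ((1 + (1 : ℝ)) / 2 : ℂ) = 1 := by push_cast; norm_num
      rw [h8] at h7
      exact h7.mono_left nhdsWithin_le_nhds
    · rw [indicator_of_notMem (by simpa using h)]
      have hne : exp ((θ : ℂ) * I) - exp ((α : ℂ) * I) ≠ 0 := by
        intro h3
        have h4 : exp ((θ : ℂ) * I) = exp ((α : ℂ) * I) := sub_eq_zero.1 h3
        have h5 := Complex.exp_inj_of_neg_pi_lt_of_le_pi (x := (θ : ℂ) * I) (y := (α : ℂ) * I)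
          (by simpa using hθ.1) (by simpa using hθ.2) (by simpa using hα.1)
          (by simpa using hα.2) h4
        have h6 : (θ : ℂ) = α := mul_right_cancel₀ Complex.I_ne_zero h5
        exact h (by exact_mod_cast h6)
      have h7 : Tendsto (fun r : ℝ => ((1 - r) / 2 : ℂ) * ker (r * exp (α * I)) θ) (𝓝 1)
          (𝓝 (((1 - (1 : ℝ)) / 2 : ℂ) * ker (((1 : ℝ) : ℂ) * exp (α * I)) θ)) := by
        unfold Pool.Agent.Run7.h58.AR.ker
        refine Tendsto.mul ?_ (Tendsto.div ?_ ?_ ?_)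
        · refine Continuous.tendsto ?_ 1
          fun_prop
        · refine Continuous.tendsto ?_ 1
          fun_prop
        · refine Continuous.tendsto ?_ 1
          fun_prop
        · simpa using hne
      have h8 : (((1 - (1 : ℝ)) / 2 : ℂ) * ker (((1 : ℝ) : ℂ) * exp (α * I)) θ) = 0 := by
        simp
      rw [h8] at h7
      exact h7.mono_left nhdsWithin_le_nhds

end Run7.h771.AR
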